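import Pool.Agent.Helper96.Uct2.Circ
import Pool.Agent.Helper10.Uct.TLV

/-! FES: the step of the induction. -/

open scoped ComplexOrder
open MeasureTheory AddCircle
open Pool.Agent.Helper39.Uct Pool.Agent.Helper10.Uct

namespace Pool.Agent.Helper96.Uct2

variable {Q : Type} [Group Q] {B : Type} [NonUnitalCStarAlgebra B]

/-- generators -/
def genS (G : Fib Q B) (f : Q →* Multiplicative ℤ) : Set C(X, B) :=
  {h | ∃ q, ∃ b ∈ G.fib q, h = gen (Multiplicative.toAdd (f q)) b}

/-- the closed span -/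
noncomputable def W (G : Fib Q B) (f : Q →* Multiplicative ℤ) : Submodule ℂ C(X, B) :=
  (Submodule.span ℂ (genS G f)).topologicalClosure

theorem W_closed (G : Fib Q B) (f : Q →* Multiplicative ℤ) : IsClosed (W G f : Set C(X, B)) :=
  Submodule.isClosed_topologicalClosure _

theorem gen_mem_W {G : Fib Q B} {f : Q →* Multiplicative ℤ} {q : Q} {b : B} (hb : b ∈ G.fib q) :
    gen (Multiplicative.toAdd (f q)) b ∈ W G f :=
  Submodule.le_topologicalClosure _ (Submodule.subset_span ⟨q, b, hb, rfl⟩)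

theorem W_mul (G : Fib Q B) (f : Q →* Multiplicative ℤ) :
    ∀ x ∈ W G f, ∀ y ∈ W G f, x * y ∈ W G f := by
  refine closure_mul_mem _ _ _ (W_closed G f) ?_
  rintro _ ⟨q, b, hb, rfl⟩ _ ⟨q', b', hb', rfl⟩
  rw [gen_mul, ← toAdd_mul, ← map_mul]
  exact gen_mem_W (G.mul_mem q q' b b' hb hb')

theorem W_star (G : Fib Q B) (f : Q →* Multiplicative ℤ) : ∀ x ∈ W G f, star x ∈ W G f := by
  refine closure_star_mem _ _ ?_
  rintro _ ⟨q, b, hb, rfl⟩
  rw [gen_star, ← toAdd_inv, ← map_inv]
  exact ⟨q⁻¹, star b, G.star_mem q b hb, rfl⟩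

theorem I_mem (G : Fib Q B) (f : Q →* Multiplicative ℤ) :
    ∀ g ∈ W G f, I g ∈ fibSpan G f.ker := by
  refine closure_map_mem _ _ (Submodule.isClosed_topologicalClosure _) I.toLinearMap
    I.continuous ?_
  rintro _ ⟨q, b, hb, rfl⟩
  rw [ContinuousLinearMap.coe_coe, I_gen]
  split_ifs with h
  · have hq : q ∈ f.ker := by
      rw [MonoidHom.mem_ker]
      exact Multiplicative.toAdd.injective h
    exact fib_le_fibSpan G f.ker hq hb
  · exact Submodule.zero_mem _

theorem E_ev {G : Fib Q B} (f : Q →* Multiplicative ℤ) {E : B →L[ℂ] B} (hE : IsE G E) :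
    ∀ g ∈ W G f, E (g 0) = E (I g) := by
  have key : ∀ g ∈ W G f, (E.comp (ContinuousMap.evalCLM ℂ (0 : X)) - E.comp I) g ∈
      (⊥ : Submodule ℂ B) := by
    refine closure_map_mem _ _ (by simp) (E.comp (ContinuousMap.evalCLM ℂ (0 : X)) -
      E.comp I : C(X, B) →L[ℂ] B).toLinearMap (ContinuousLinearMap.continuous _) ?_
    rintro _ ⟨q, b, hb, rfl⟩
    rw [Submodule.mem_bot]
    change E (gen (Multiplicative.toAdd (f q)) b 0) -
      E (I (gen (Multiplicative.toAdd (f q)) b)) = 0
    rw [I_gen, gen_apply, fourier_eval_zero, one_smul]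
    split_ifs with h
    · rw [sub_self]
    · have hq : q ≠ 1 := by
        rintro rfl
        apply h
        rw [map_one]
        rfl
      rw [hE.2.1 q hq b hb, map_zero, sub_zero]
  intro g hg
  have h1 := key g hg
  rw [Submodule.mem_bot] at h1
  exact sub_eq_zero.1 h1

/-- restriction of a topological grading -/
theorem top_restrict {G : Fib Q B} (hG : G.Top) {H : Subgroup Q} {D : Type}
    [NonUnitalCStarAlgebra D] {ι : D →⋆ₙₐ[ℂ] B} (hι : Function.Injective ι) {G' : Fib H D}
    (h : ∀ (q : H) (x : D), x ∈ G'.fib q ↔ ι x ∈ G.fib q) : G'.Top := by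
  classical
  intro s b hb h1
  have hn : ∀ x, ‖ι x‖ = ‖x‖ := fun x => NonUnitalStarAlgHom.norm_map ι hι x
  have h2 := hG (s.map (Function.Embedding.subtype _))
    (fun q => if hq : q ∈ H then ι (b ⟨q, hq⟩) else 0) (by
      intro q hq
      rw [Finset.mem_map] at hq
      obtain ⟨q', hq', rfl⟩ := hq
      simp only [Function.Embedding.coe_subtype, q'.2, dif_pos]
      exact (h q' _).1 (hb q' hq')) (by
      rw [Finset.mem_map]
      exact ⟨1, h1, rfl⟩)
  rw [Finset.sum_map] at h2
  simp only [Function.Embedding.coe_subtype, Subtype.coe_eta, dif_pos, H.one_mem] at h2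
  have h3 : ∑ x ∈ s, (if h : (x : Q) ∈ H then ι (b x) else 0) = ι (∑ x ∈ s, b x) := by
    rw [map_sum]
    exact Finset.sum_congr rfl fun x _ => by rw [dif_pos x.2]
  rw [h3, hn, hn] at h2
  exact h2

/-- square roots in closed subalgebras -/
theorem exists_sqrt (V : Submodule ℂ B) (hV : IsClosed (V : Set B))
    (hmul : ∀ x ∈ V, ∀ y ∈ V, x * y ∈ V) (hstar : ∀ x ∈ V, star x ∈ V) {x : B} (hx : x ∈ V)
    (h0 : letI := CStarAlgebra.spectralOrder B; 0 ≤ x) : ∃ s ∈ V, star s * s = x := by
  let _ : PartialOrder B := CStarAlgebra.spectralOrder B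
  have : StarOrderedRing B := CStarAlgebra.spectralOrderedRing B
  have hcl : IsClosed ((subalg V hmul hstar : NonUnitalStarSubalgebra ℂ B) : Set B) := hV
  refine ⟨CFC.sqrt x, ?_, ?_⟩
  · have h1 : CFC.sqrt x ∈ subalg V hmul hstar := by
      unfold CFC.sqrt
      rw [cfcₙ_nnreal_eq_real _ _ h0]
      exact cfcₙ_mem (𝕜 := ℝ) (𝕜' := ℂ) (s := subalg V hmul hstar) _ hx
    exact h1
  · have h2 : star (CFC.sqrt x) = CFC.sqrt x := (CFC.sqrt_nonneg x).isSelfAdjoint.star_eq
    rw [h2, CFC.sqrt_mul_sqrt_self x h0]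

/-- the main lemma -/
theorem main (hEE : S_EE) (f : Q →* Multiplicative ℤ)
    (hS : ∀ (B : Type) [NonUnitalCStarAlgebra B] (G : Fib f.ker B), G.Top → Faith G)
    {G : Fib Q B} (hG : G.Top) {E : B →L[ℂ] B} (hE : IsE G E) {g : C(X, B)} (hg : g ∈ W G f)
    (h : E (star (g 0) * g 0) = 0) : g = 0 := by
  have hgg : star g * g ∈ W G f := W_mul G f _ (W_star G f g hg) _ hg
  apply eq_zero_of_I
  set x : B := I (star g * g) with hx
  have hEx : E x = 0 := by
    rw [hx, ← E_ev f hE _ hgg]
    exact h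
  have hxm : x ∈ fibSpan G f.ker := I_mem G f _ hgg
  have hx0 : letI := CStarAlgebra.spectralOrder B; 0 ≤ x := by
    let _ : PartialOrder B := CStarAlgebra.spectralOrder B
    have : StarOrderedRing B := CStarAlgebra.spectralOrderedRing B
    exact I_nonneg _ fun t => star_mul_self_nonneg (g t)
  have hmulS : ∀ x ∈ fibSpan G f.ker, ∀ y ∈ fibSpan G f.ker, x * y ∈ fibSpan G f.ker := by
    refine closure_mul_mem _ _ _ (Submodule.isClosed_topologicalClosure _) ?_
    rintro x ⟨q, hq, hx⟩ y ⟨q', hq', hy⟩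
    exact fib_le_fibSpan G _ (f.ker.mul_mem hq hq') (G.mul_mem q q' x y hx hy)
  have hstarS : ∀ x ∈ fibSpan G f.ker, star x ∈ fibSpan G f.ker := by
    apply closure_star_mem
    rintro x ⟨q, hq, hx⟩
    exact ⟨q⁻¹, f.ker.inv_mem hq, G.star_mem q x hx⟩
  obtain ⟨s, hs, hss⟩ := exists_sqrt (fibSpan G f.ker) (Submodule.isClosed_topologicalClosure _)
    hmulS hstarS hxm hx0
  obtain ⟨D, _, ι, hι, hr, G', hG'⟩ := exists_restrict G f.ker
  have hG'T : G'.Top := top_restrict hG hι hG'
  obtain ⟨E', hE', -⟩ := hEE f.ker D G' hG'T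
  have hiso : Isometry ι := NonUnitalStarAlgHom.isometry ι hι
  obtain ⟨s', rfl⟩ : s ∈ Set.range ι := by rw [hr]; exact hs
  -- `E` and `E'` agree
  have hEE' : ∀ d : D, E (ι d) = ι (E' d) := by
    have hcl : IsClosed {d : D | E (ι d) = ι (E' d)} :=
      isClosed_eq (E.continuous.comp hiso.continuous) (hiso.continuous.comp E'.continuous)
    let L : Submodule ℂ D :=
      { carrier := {d : D | E (ι d) = ι (E' d)}
        add_mem' := by
          intro a b ha hb
          simp only [Set.mem_ofPred_eq] at ha hb ⊢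
          rw [map_add, map_add, ha, hb, map_add, map_add]
        zero_mem' := by
          simp only [Set.mem_ofPred_eq, map_zero]
        smul_mem' := by
          intro c a ha
          simp only [Set.mem_ofPred_eq] at ha ⊢
          rw [map_smul, map_smul, ha, map_smul, map_smul] }
    have h1 : (⨆ q, G'.fib q) ≤ L := by
      refine iSup_le fun q d hd => ?_
      change E (ι d) = ι (E' d)
      by_cases hq : q = 1
      · subst hq
        rw [hE'.1 d hd]
        exact hE.1 _ ((hG' 1 d).1 hd)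
      · rw [hE'.2.1 q hq d hd, map_zero]
        exact hE.2.1 (q : Q) (fun hq' => hq (Subtype.ext hq')) _ ((hG' q d).1 hd)
    have h2 : (⨆ q, G'.fib q).topologicalClosure ≤ L :=
      Submodule.topologicalClosure_minimal _ h1 hcl
    rw [G'.dense] at h2
    intro d
    exact h2 (Submodule.mem_top)
  have h3 : E' (star s' * s') = 0 := by
    apply hι
    rw [← hEE', map_mul, map_star, hss, hEx, map_zero]
  have h4 : s' = 0 := hS D G' hG'T E' hE' s' h3
  rw [← hss, h4, map_zero, mul_zero]

/-- FES -/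
theorem fes (hEE : S_EE) : S_FES := by
  intro Q _ f hS B _ G hG
  obtain ⟨E₀, hE₀, -⟩ := hEE Q B G hG
  have hinj : ∀ g ∈ W G f, g 0 = 0 → g = 0 := by
    intro g hg h0
    exact main hEE f hS hG hE₀ hg (by rw [h0, mul_zero, map_zero])
  obtain ⟨A, _, κ, hκ, hr⟩ := exists_alg (W G f) (W_closed G f) (W_mul G f) (W_star G f)
  have hκm : ∀ a, κ a ∈ W G f := fun a => by
    have : κ a ∈ Set.range κ := Set.mem_range_self a
    rw [hr] at this
    exact this
  set e : A →⋆ₙₐ[ℂ] B := (ev 0).comp κ with he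
  have heinj : Function.Injective e := by
    rw [injective_iff_map_eq_zero]
    intro a ha
    have h1 := hinj (κ a) (hκm a) ha
    apply hκ
    rw [h1, map_zero]
  have heiso : Isometry e := NonUnitalStarAlgHom.isometry e heinj
  have hfibr : ∀ q, ∀ b ∈ G.fib q, ∃ a : A, κ a = gen (Multiplicative.toAdd (f q)) b ∧ e a = b := by
    intro q b hb
    have h1 : gen (Multiplicative.toAdd (f q)) b ∈ Set.range κ := by
      rw [hr]
      exact gen_mem_W hb
    obtain ⟨a, ha⟩ := h1
    refine ⟨a, ha, ?_⟩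
    change κ a 0 = b
    rw [ha, gen_apply, fourier_eval_zero, one_smul]
  have hesurj : Function.Surjective e := by
    have hcl : IsClosed (Set.range e) := heiso.isClosedEmbedding.isClosed_range
    let L : Submodule ℂ B := LinearMap.range
      ({ toFun := e, map_add' := map_add e, map_smul' := map_smul e } : A →ₗ[ℂ] B)
    have hL : (L : Set B) = Set.range e := by
      ext b
      rfl
    have h1 : (⨆ q, G.fib q) ≤ L := by
      refine iSup_le fun q b hb => ?_
      obtain ⟨a, -, ha⟩ := hfibr q b hb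
      exact ⟨a, ha⟩
    have h2 : (⨆ q, G.fib q).topologicalClosure ≤ L :=
      Submodule.topologicalClosure_minimal _ h1 (by rw [hL]; exact hcl)
    rw [G.dense] at h2
    intro b
    exact h2 (Submodule.mem_top : b ∈ ⊤)
  obtain ⟨θ, hθ⟩ := lift_hom (NonUnitalStarAlgHom.id ℂ B) e heinj (by
    intro b _
    exact hesurj b)
  have hθ' : ∀ b, e (θ b) = b := hθ
  refine ⟨?_, ?_⟩
  · intro E hE b hb
    have h1 : E (star ((κ (θ b)) 0) * (κ (θ b)) 0) = 0 := by
      have h2 : (κ (θ b)) 0 = b := hθ' b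
      rw [h2]
      exact hb
    have h3 := main hEE f hS hG hE (hκm (θ b)) h1
    have h4 : (κ (θ b)) 0 = b := hθ' b
    rw [← h4, h3]
    rfl
  · -- the gauge automorphisms
    have hγ : ∀ x : X, ∃ γ : B →⋆ₙₐ[ℂ] B,
        ∀ q, ∀ b ∈ G.fib q, γ b = (fourier (Multiplicative.toAdd (f q)) x : ℂ) • b := by
      intro x
      refine ⟨(ev x).comp (κ.comp θ), fun q b hb => ?_⟩
      obtain ⟨a, ha, ha'⟩ := hfibr q b hb
      have h1 : θ b = a := heinj (by rw [hθ', ha'])
      change κ (θ b) x = _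
      rw [h1, ha, gen_apply]
    have hcomp : ∀ x : X, ∀ γ γ' : B →⋆ₙₐ[ℂ] B,
        (∀ q, ∀ b ∈ G.fib q, γ b = (fourier (Multiplicative.toAdd (f q)) x : ℂ) • b) →
        (∀ q, ∀ b ∈ G.fib q, γ' b = (fourier (Multiplicative.toAdd (f q)) (-x) : ℂ) • b) →
        ∀ b, γ (γ' b) = b := by
      intro x γ γ' h h'
      have hcont : ∀ φ : B →⋆ₙₐ[ℂ] B, Continuous φ := fun φ =>
        AddMonoidHomClass.continuous_of_bound φ 1
          (by simpa only [one_mul] using NonUnitalStarAlgHom.norm_apply_le φ)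
      let L : Submodule ℂ B :=
        { carrier := {b | γ (γ' b) = b}
          add_mem' := by
            intro a b ha hb
            simp only [Set.mem_ofPred_eq] at ha hb ⊢
            rw [map_add, map_add, ha, hb]
          zero_mem' := by
            simp only [Set.mem_ofPred_eq, map_zero]
          smul_mem' := by
            intro c a ha
            simp only [Set.mem_ofPred_eq] at ha ⊢
            rw [map_smul, map_smul, ha] }
      have hcl : IsClosed (L : Set B) :=
        isClosed_eq ((hcont γ).comp (hcont γ')) continuous_id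
      have h1 : (⨆ q, G.fib q) ≤ L := by
        refine iSup_le fun q b hb => ?_
        change γ (γ' b) = b
        rw [h' q b hb, map_smul, h q b hb, smul_smul]
        have h5 : fourier (Multiplicative.toAdd (f q)) (-x) *
            fourier (Multiplicative.toAdd (f q)) x = (1 : ℂ) := by
          rw [fourier_apply, fourier_apply, ← Circle.coe_mul, ← toCircle_add, smul_neg,
            neg_add_cancel, toCircle_zero, Circle.coe_one]
        rw [h5, one_smul]
      have h2 : (⨆ q, G.fib q).topologicalClosure ≤ L :=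
        Submodule.topologicalClosure_minimal _ h1 hcl
      rw [G.dense] at h2
      intro b
      exact h2 (Submodule.mem_top : b ∈ ⊤)
    intro z
    obtain ⟨x, hx⟩ := (homeomorphCircle (T := (1 : ℝ)) one_ne_zero).surjective z
    rw [homeomorphCircle_apply] at hx
    obtain ⟨γ, hγx⟩ := hγ x
    obtain ⟨γ', hγ'x⟩ := hγ (-x)
    have h1 := hcomp x γ γ' hγx hγ'x
    have h2 := hcomp (-x) γ' γ hγ'x (by rw [neg_neg]; exact hγx)
    refine ⟨γ, ⟨fun b c hbc => ?_, fun b => ⟨γ' b, h1 b⟩⟩, fun q b hb => ?_⟩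
    · rw [← h2 b, hbc, h2 c]
    · rw [hγx q b hb, fourier_apply, toCircle_zsmul, hx, Circle.coe_zpow]

end Pool.Agent.Helper96.Uct2
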