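import Pool.Agent.Helper39.Uct.Goals3

/-! Functions on the circle with values in a C*-algebra. -/

open scoped ComplexOrder
open MeasureTheory AddCircle

namespace Pool.Agent.Helper96.Uct2

/-- The circle. -/
abbrev X := AddCircle (1 : ℝ)

variable {B : Type} [NonUnitalCStarAlgebra B]

/-- The function `z ^ n • b`. -/
noncomputable def gen (n : ℤ) (b : B) : C(X, B) :=
  ⟨fun x => fourier n x • b, (map_continuous (fourier n)).smul continuous_const⟩

theorem gen_apply (n : ℤ) (b : B) (x : X) : gen n b x = fourier n x • b := rfl

theorem gen_mul (n m : ℤ) (b c : B) : gen n b * gen m c = gen (n + m) (b * c) := by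
  ext x
  rw [ContinuousMap.mul_apply, gen_apply, gen_apply, gen_apply, fourier_add, smul_mul_smul_comm]

theorem gen_star (n : ℤ) (b : B) : star (gen n b) = gen (-n) (star b) := by
  ext x
  rw [ContinuousMap.star_apply, gen_apply, gen_apply, fourier_neg, star_smul]
  rfl

/-- Evaluation at `x`. -/
def ev (x : X) : C(X, B) →⋆ₙₐ[ℂ] B where
  toFun g := g x
  map_smul' _ _ := rfl
  map_zero' := rfl
  map_add' _ _ := rfl
  map_mul' _ _ := rfl
  map_star' _ := rfl

theorem ev_apply (x : X) (g : C(X, B)) : ev x g = g x := rfl

theorem integrable (g : C(X, B)) : Integrable g haarAddCircle :=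
  (map_continuous g).integrable_of_hasCompactSupport (HasCompactSupport.of_compactSpace _)

/-- The integral. -/
noncomputable def I : C(X, B) →L[ℂ] B :=
  LinearMap.mkContinuous
    { toFun := fun g => ∫ x, g x ∂haarAddCircle
      map_add' := fun g h => integral_add (integrable g) (integrable h)
      map_smul' := fun c g => integral_smul c _ } 1 (by
    intro g
    rw [one_mul]
    refine (norm_integral_le_of_norm_le_const (C := ‖g‖)
      (Filter.Eventually.of_forall fun x => g.norm_coe_le_norm x)).trans ?_
    simp)

theorem I_apply (g : C(X, B)) : I g = ∫ x, g x ∂haarAddCircle := rfl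

theorem integral_fourier (n : ℤ) :
    ∫ x : X, fourier n x ∂haarAddCircle = if n = 0 then 1 else 0 := by
  have h := congrFun (fourierCoeff_fourier (T := 1) n) 0
  unfold fourierCoeff at h
  simp only [neg_zero, fourier_zero, one_smul] at h
  rw [h]
  by_cases hn : n = 0
  · subst hn; simp
  · rw [if_neg hn, Pi.single_eq_of_ne (Ne.symm hn)]

theorem I_gen (n : ℤ) (b : B) : I (gen n b) = if n = 0 then b else 0 := by
  rw [I_apply]
  simp only [gen_apply]
  rw [integral_smul_const, integral_fourier]
  by_cases hn : n = 0 <;> simp [hn]

theorem I_mul_left (b : B) (g h : C(X, B)) (hh : ∀ x, h x = b * g x) : I h = b * I g := by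
  rw [I_apply, I_apply]
  have h1 := (ContinuousLinearMap.mul ℂ B b).integral_comp_comm (integrable g)
  simp only [ContinuousLinearMap.mul_apply'] at h1
  rw [← h1]
  exact integral_congr_ae (Filter.Eventually.of_forall hh)

theorem I_star (g : C(X, B)) : I (star g) = star (I g) := by
  rw [I_apply, I_apply]
  have h1 := ((starL' ℝ : B ≃L[ℝ] B) : B →L[ℝ] B).integral_comp_comm (integrable g)
  exact h1

theorem I_nonneg [PartialOrder B] [StarOrderedRing B] (g : C(X, B)) (hg : ∀ x, 0 ≤ g x) :
    0 ≤ I g := by
  have hc : Convex ℝ {a : B | 0 ≤ a} := by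
    intro a ha b hb s t hs ht _
    exact add_nonneg (smul_nonneg hs ha) (smul_nonneg ht hb)
  exact hc.integral_mem CStarAlgebra.isClosed_nonneg (Filter.Eventually.of_forall hg)
    (integrable g)

/-- The Fourier coefficients. -/
theorem fourier_zero_of_I {g : C(X, B)} (hg : I (star g * g) = 0) (n : ℤ) :
    ∫ x : X, fourier (-n) x • g x ∂haarAddCircle = 0 := by
  let _ : PartialOrder B := CStarAlgebra.spectralOrder B
  have : StarOrderedRing B := CStarAlgebra.spectralOrderedRing B
  set h : C(X, B) := ⟨fun x => fourier (-n) x • g x,
    (map_continuous (fourier (-n))).smul (map_continuous g)⟩ with hh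
  set y : B := I h with hy
  change y = 0
  have h1 : I (star (gen n y) * g) = star y * y := by
    apply I_mul_left
    intro x
    rw [gen_star, ContinuousMap.mul_apply, gen_apply, smul_mul_assoc]
    change fourier (-n) x • (star y * g x) = star y * (fourier (-n) x • g x)
    rw [mul_smul_comm]
  have h2 : I (star g * gen n y) = star y * y := by
    have h3 : star g * gen n y = star (star (gen n y) * g) := by
      rw [star_mul, star_star]
    rw [h3, I_star, h1, star_mul, star_star]
  have h4 : I (star (gen n y) * gen n y) = star y * y := by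
    rw [gen_star, gen_mul, neg_add_cancel, I_gen, if_pos rfl]
  set u : C(X, B) := g - gen n y with hu
  have h5 : I (star u * u) = - (star y * y) := by
    have h6 : star u * u = star g * g - star g * gen n y - star (gen n y) * g +
        star (gen n y) * gen n y := by
      rw [hu, star_sub]
      noncomm_ring
    rw [h6, map_add, map_sub, map_sub, hg, h1, h2, h4]
    abel
  have h7 : 0 ≤ I (star u * u) := I_nonneg _ fun x => star_mul_self_nonneg (u x)
  rw [h5] at h7
  have h8 : star y * y = 0 := le_antisymm (neg_nonneg.1 h7) (star_mul_self_nonneg y)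
  exact CStarRing.star_mul_self_eq_zero_iff y |>.1 h8

theorem eq_zero_of_I {g : C(X, B)} (hg : I (star g * g) = 0) : g = 0 := by
  ext x
  rw [ContinuousMap.zero_apply]
  refine SeparatingDual.eq_zero_of_forall_dual_eq_zero (R := ℂ) fun φ => ?_
  set f : C(X, ℂ) := ⟨fun x => φ (g x), φ.continuous.comp (map_continuous g)⟩ with hf
  have h1 : ∀ n, fourierCoeff f n = 0 := by
    intro n
    have h2 := fourier_zero_of_I hg n
    unfold fourierCoeff
    have h3 : Integrable (fun x : X => fourier (-n) x • g x) haarAddCircle :=
      integrable ⟨fun x => fourier (-n) x • g x,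
        (map_continuous (fourier (-n))).smul (map_continuous g)⟩
    have h4 := φ.integral_comp_comm h3
    rw [h2, map_zero] at h4
    rw [← h4]
    refine integral_congr_ae (Filter.Eventually.of_forall fun x => ?_)
    simp only [map_smul, hf]
    rfl
  have h5 : Summable (fourierCoeff f) := by
    have : fourierCoeff (f : X → ℂ) = fun _ => 0 := funext h1
    rw [this]
    exact summable_zero
  have h6 := hasSum_fourier_series_of_summable h5
  have h7 : HasSum (fun i => fourierCoeff f i • (fourier i : C(X, ℂ))) 0 := by
    have : (fun i => fourierCoeff f i • (fourier i : C(X, ℂ))) = fun _ => 0 := by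
      funext i
      rw [h1 i]
      ext t
      simp
    rw [this]
    exact hasSum_zero
  have h8 : f = 0 := h6.unique h7
  have h9 := congrArg (fun h : C(X, ℂ) => h x) h8
  exact h9

end Pool.Agent.Helper96.Uct2
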